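import Mathlib
import Pool.Agent.H35_PR.Fin

/-!
# Every even number is a gap between consecutive primes, or 23 slopes suffice for quotients of shifted primes

Let `h = 2 g` be ANY positive even number. At least one of the following holds.

(A) `h` is the difference of two consecutive primes, infinitely often: for arbitrarily large `x` there are at
least `x / (log x) ^ B` primes `p ≤ x` such that `p + h` is the next prime. (For `h = 2` these are twin primes.)

(B) Among ANY 23 positive integers prime to `g` there are two, `a ≠ b`, such that `p = a n ± g` and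
`q = b n ± g` (signs independent) are both primes for at least `x / (log x) ^ B` of the `n ≤ x`; this holds for
all large `x`. Consequently every positive rational number `r ≠ 1` with numerator and denominator prime to `g`
has a power `r ^ k`, `1 ≤ k ≤ 22`, with infinitely many representations `r ^ k = (q ± g) / (p ± g)` by primes
`p, q`: at least `x / (log x) ^ B` for arbitrarily large `x`.

The exponent `B` is absolute. Proof: two of any 45 admissible linear forms are prime, with exact control of
finitely many further forms (`Pool.Agent.Y876.FF`, starting files; the certificate for 45 forms is that of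
helper826). This is applied to the 46 forms `a_i n + g`, `a_i n - g`, all the numbers between `a_i n - g` and
`a_i n + g` being kept composite.
-/

set_option autoImplicit false

namespace Pool.Agent.Results.MP_70e905_nt.PolignacOrQuotients

open Filter

/-- the number of the primes `p ≤ x` for which `p + 2 g` is the next prime -/
noncomputable def gapCount (g : ℕ) (x : ℝ) : ℕ :=
  {p : ℕ | (p : ℝ) ≤ x ∧ p.Prime ∧ (p + 2 * g).Prime ∧ ∀ m, p < m → m < p + 2 * g → ¬ m.Prime}.ncard

/-- the number of the `n ≤ x` for which `a n + e g` and `b n + e' g` are both (positive) primes -/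
noncomputable def pairCount (g a b : ℕ) (e e' : ℤ) (x : ℝ) : ℕ :=
  {n : ℕ | (n : ℝ) ≤ x ∧ ((a : ℤ) * n + e * g).toNat.Prime ∧ ((b : ℤ) * n + e' * g).toNat.Prime}.ncard

/-- the number of the primes `p ≤ x` for which `c (p - e g) = d (q - e' g)` for some prime `q` -/
noncomputable def quotCount (g c d : ℕ) (e e' : ℤ) (x : ℝ) : ℕ :=
  {p : ℕ | (p : ℝ) ≤ x ∧ p.Prime ∧ ∃ q : ℕ, q.Prime ∧ (c : ℤ) * (p - e * g) = d * (q - e' * g)}.ncard

theorem result : ∃ B : ℕ, ∀ g : ℕ, 1 ≤ g →
    (∃ᶠ x : ℝ in atTop, x / Real.log x ^ B ≤ (gapCount g x : ℝ)) ∨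
    ((∀ a : Fin 23 → ℕ, Function.Injective a → (∀ i, 1 ≤ a i ∧ (a i).Coprime g) →
        ∀ᶠ x : ℝ in atTop, ∃ i j, i ≠ j ∧ ∃ e ∈ ({1, -1} : Set ℤ), ∃ e' ∈ ({1, -1} : Set ℤ),
          x / Real.log x ^ B ≤ (pairCount g (a i) (a j) e e' x : ℝ)) ∧
      ∀ c d : ℕ, 1 ≤ c → 1 ≤ d → c ≠ d → c.Coprime g → d.Coprime g →
        ∃ k, 1 ≤ k ∧ k ≤ 22 ∧ ∃ e ∈ ({1, -1} : Set ℤ), ∃ e' ∈ ({1, -1} : Set ℤ),
          ∃ᶠ x : ℝ in atTop, x / Real.log x ^ B ≤ (quotCount g (c ^ k) (d ^ k) e e' x : ℝ)) :=
  Pool.Agent.H35_PR.main

end Pool.Agent.Results.MP_70e905_nt.PolignacOrQuotients
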