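import Mathlib
import Pool.Agent.H806.PD.Exi

/-!
# Differences of two primes from thin sets given by polynomials modulo 1

Let `P`, `R` be real polynomials of degree at least two whose leading coefficients are of finite type (not
approximable by fractions `a / q` to arbitrarily high powers of `1 / q`, e.g. algebraic irrational numbers). There is
`η > 0` such that:

1. for every `A`, all but at most `H / (log H)^A` of the even `h ≤ H` have the following property: for ALL real `u`,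
   `v` there are primes `p` and `q = p + h ≤ H (log H)^12` with `‖P(p) - u‖ ≤ q^(-η)` and `‖R(q) - v‖ ≤ q^(-η)`;
2. for almost all even `h` the number of such pairs with `P(p)` and `R(p + h)` modulo 1 in prescribed arcs of
   lengths `b₁`, `b₂ ≥ N^(-η)`, in an admissible residue class, is `b₁ b₂` times the number predicted by Hardy and
   Littlewood, with the error `b₁ b₂ N / (log N)^C`, uniformly in the arcs, the classes, and the window;
3. for all but at most `N^(1 - η)` of ALL `h ≤ N` the pairs `(P(p), R(p + h))` modulo 1, over the primes `p ≤ y` with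
   `p + h ≤ y` prime and `p ≡ a (mod q)`, are equidistributed with an error at most `N^(1 - η)`, for all `q ≤ N^η`,
   all `a`, all `y ≤ N` and all arcs, however many such pairs of primes there are.

Proof (`H806/PD`): Vaughan's identity and Weyl's method give a power saving for `∑ e(k P(p) + β p)`, `p ≤ y` prime,
uniformly in `β` and in `0 < |k| ≤ N^η`. Parseval's identity gives a power saving for the mean square over `h` of
the sums `∑ e(k P(p) + l R(p + h) + p b / q)` over the prime pairs; the union over the windows, the moduli and the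
frequencies, and a Fourier majorant of an arc give (3). The results on pairs of primes in progressions (files
`TH935`, `H560R3`, `W93`) then give (2), and (1) follows.
-/

set_option autoImplicit false

namespace Pool.Agent.Results.MP_70e905_nt.PolynomialBohrSets

open Finset Polynomial

/-- `α` is of finite type: `|q α - a| ≥ κ q^(-τ)` for some `κ > 0`, `τ` and all integers `q ≥ 1`, `a`. -/
def FiniteType (α : ℝ) : Prop :=
  ∃ (τ : ℕ) (κ : ℝ), 0 < κ ∧ ∀ q : ℕ, 1 ≤ q → ∀ a : ℤ, κ / (q : ℝ) ^ τ ≤ |q * α - a|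

/-- The primes `p ≡ a (mod q)` with `p + h` a prime `≤ y`. -/
def primePairs (a q h y : ℕ) : Finset ℕ :=
  (Ioc 0 y).filter (fun p => p.Prime ∧ (p + h).Prime ∧ p + h ≤ y ∧ p ≡ a [MOD q])

open Classical in
/-- The number of `p` in `primePairs a q h y` with `P(p) ∈ [a₁, a₁ + b₁)` and `R(p + h) ∈ [a₂, a₂ + b₂)` modulo 1. -/
noncomputable def arcPairs (P R : ℝ[X]) (a q h y : ℕ) (a₁ b₁ a₂ b₂ : ℝ) : ℕ :=
  ((primePairs a q h y).filter (fun p : ℕ => Int.fract (P.eval (p : ℝ) - a₁) < b₁ ∧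
    Int.fract (R.eval (((p + h : ℕ)) : ℝ) - a₂) < b₂)).card

/-- The number of elements of `primePairs a q h y` predicted by Hardy and Littlewood, for even `h > 0` and
`(a, q) = (a + h, q) = 1`; `C₂ = ∏_{p > 2} (1 - 1 / (p - 1) ^ 2)`. -/
noncomputable def predicted (h q y : ℕ) : ℝ :=
  2 / (((range q).filter (fun α => Nat.Coprime α q ∧ Nat.Coprime (α + h) q)).card : ℝ) *
    (∏ p ∈ h.primeFactors.filter (fun p => 2 < p), ((p : ℝ) - 1) / ((p : ℝ) - 2)) * Pool.Agent.H560R3.GB.C₂ *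
    ∫ t in (2 : ℝ)..(y : ℝ), 1 / Real.log t ^ 2

/-- Algebraic irrational numbers are of finite type (Liouville). Not used in `result`. -/
theorem finiteType_of_root {α : ℝ} (hα : Irrational α) {f : ℤ[X]} (f0 : f ≠ 0)
    (fα : Polynomial.eval α (f.map (algebraMap ℤ ℝ)) = 0) : FiniteType α := by
  obtain ⟨A, hA, h⟩ := Liouville.exists_pos_real_of_irrational_root hα f0 fα
  refine ⟨f.natDegree, 1 / A, by positivity, fun q hq a => ?_⟩
  have hq1 : (1 : ℝ) ≤ q := by exact_mod_cast hq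
  have hq0 : (0 : ℝ) < q := by linarith
  have h1 := h a (q - 1)
  have e : (((q - 1 : ℕ) : ℝ) + 1) = q := by rw [Nat.cast_sub hq]; simp
  rw [e] at h1
  have e2 : |(q : ℝ) * α - a| = q * |α - a / q| := by
    rw [← abs_of_pos hq0, ← abs_mul, abs_of_pos hq0]
    congr 1
    field_simp
  rw [e2, div_div, div_le_iff₀ (by positivity)]
  have h2 : 0 ≤ |α - a / q| := abs_nonneg _
  have h3 : (1 : ℝ) * 1 ≤ (q : ℝ) * ((q : ℝ) ^ f.natDegree * (|α - a / q| * A)) :=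
    mul_le_mul hq1 h1 zero_le_one hq0.le
  linarith

/-- Let `P`, `R` be real polynomials of degree at least two whose leading coefficients are of finite type. There is
`η > 0` with (1), (2), (3) below. In (1), `E` may depend on `A` and `H`, but not on the targets `u`, `v`; in (2) and
(3) it does not depend on the modulus, the class, the window `y` and the arcs. -/
theorem result (P R : ℝ[X]) (hP : 2 ≤ P.natDegree) (hR : 2 ≤ R.natDegree) (hPα : FiniteType P.leadingCoeff)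
    (hRα : FiniteType R.leadingCoeff) :
    ∃ η : ℝ, 0 < η ∧
      -- (1) almost all even `h` are differences of two primes from the prescribed thin sets
      (∀ A : ℕ, ∃ H₀ : ℕ, ∀ H : ℕ, H₀ ≤ H → ∃ E : Finset ℕ, (E.card : ℝ) ≤ H / Real.log H ^ A ∧
        ∀ h : ℕ, 0 < h → Even h → h ≤ H → h ∉ E → ∀ u v : ℝ, ∃ p q : ℕ, p.Prime ∧ q.Prime ∧ q = p + h ∧
          (q : ℝ) ≤ H * Real.log H ^ 12 ∧ (∃ m : ℤ, |P.eval (p : ℝ) - u - m| ≤ (q : ℝ) ^ (-η)) ∧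
          ∃ m : ℤ, |R.eval (q : ℝ) - v - m| ≤ (q : ℝ) ^ (-η)) ∧
      -- (2) the asymptotic number, for almost all even `h`
      (∀ A B C : ℕ, ∃ N₀ : ℕ, ∀ N : ℕ, N₀ ≤ N → ∃ E : Finset ℕ, (E.card : ℝ) ≤ N / Real.log N ^ A ∧
        ∀ h : ℕ, 0 < h → Even h → (h : ℝ) ≤ N / Real.log N ^ (C + 7) → h ∉ E →
        ∀ q : ℕ, 1 ≤ q → (q : ℝ) ≤ Real.log N ^ B → ∀ a : ℕ, Nat.Coprime a q → Nat.Coprime (a + h) q →
        ∀ y : ℕ, 2 ≤ y → y ≤ N → ∀ a₁ b₁ a₂ b₂ : ℝ,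
          (N : ℝ) ^ (-η) ≤ b₁ → b₁ ≤ 1 → (N : ℝ) ^ (-η) ≤ b₂ → b₂ ≤ 1 →
          |(arcPairs P R a q h y a₁ b₁ a₂ b₂ : ℝ) - b₁ * b₂ * predicted h q y| ≤
            b₁ * b₂ * (N / Real.log N ^ C)) ∧
      -- (3) equidistribution with a power saving, for all `h ≤ N` outside a set of at most `N ^ (1 - η)` elements
      (∃ N₀ : ℕ, ∀ N : ℕ, N₀ ≤ N → ∃ E : Finset ℕ, (E.card : ℝ) ≤ (N : ℝ) ^ (1 - η) ∧
        ∀ h : ℕ, h ≤ N → h ∉ E → ∀ q : ℕ, 1 ≤ q → (q : ℝ) ≤ (N : ℝ) ^ η → ∀ a y : ℕ, y ≤ N → ∀ a₁ b₁ a₂ b₂ : ℝ,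
          0 ≤ b₁ → b₁ ≤ 1 → 0 ≤ b₂ → b₂ ≤ 1 →
          |(arcPairs P R a q h y a₁ b₁ a₂ b₂ : ℝ) - b₁ * b₂ * (primePairs a q h y).card| ≤ (N : ℝ) ^ (1 - η)) := by
  obtain ⟨τ₁, κ₁, h1⟩ := hPα
  obtain ⟨τ₂, κ₂, h2⟩ := hRα
  obtain ⟨η₀, h00, h01, N₀, hmain⟩ := Pool.Agent.H806.PD.main_eq P.natDegree R.natDegree hP hR τ₁ τ₂ κ₁ κ₂ _ _ h1 h2
    P R le_rfl rfl le_rfl rfl
  set η : ℝ := η₀ / 4 with hη
  have hη0 : 0 < η := by rw [hη]; positivity
  have hηa : 4 * η ≤ η₀ := by rw [hη]; linarith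
  have hbox : ∀ A B C : ℕ, ∃ N₀ : ℕ, ∀ N : ℕ, N₀ ≤ N → ∃ E : Finset ℕ, (E.card : ℝ) ≤ N / Real.log N ^ A ∧
      ∀ h : ℕ, 0 < h → Even h → (h : ℝ) ≤ N / Real.log N ^ (C + 7) → h ∉ E → ∀ q : ℕ, 1 ≤ q → (q : ℝ) ≤ Real.log N ^ B →
      ∀ a : ℕ, Nat.Coprime a q → Nat.Coprime (a + h) q → ∀ y : ℕ, 2 ≤ y → y ≤ N → ∀ a₁ b₁ a₂ b₂ : ℝ,
      (N : ℝ) ^ (-η) ≤ b₁ → b₁ ≤ 1 → (N : ℝ) ^ (-η) ≤ b₂ → b₂ ≤ 1 →
      |(Pool.Agent.H806.PD.box P R a q h y a₁ b₁ a₂ b₂ : ℝ) -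
        b₁ * b₂ * (Pool.Agent.H560R3.GB.sing h / Pool.Agent.W93.PP.Cnt q h * Pool.Agent.W93.PP.Li2 y)| ≤
        b₁ * b₂ * (N / Real.log N ^ C) := by
    intro A B C
    obtain ⟨N₂, h3⟩ := Pool.Agent.H806.PD.box_almost P R η₀ h00 h01 N₀ hmain A B C
    refine ⟨N₂ + 1, fun N hN => ?_⟩
    have hN1 : (1 : ℝ) ≤ N := by exact_mod_cast (by omega : 1 ≤ N)
    obtain ⟨E, hE1, hE2⟩ := h3 N (by omega)
    refine ⟨E, hE1, fun h hh0 hhe hhN hhE q hq1 hqB a ha1 ha2 y hy2 hyN a₁ b₁ a₂ b₂ hb1 hb1' hb2 hb2' => ?_⟩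
    have hle : (N : ℝ) ^ (-(η₀ / 4)) ≤ (N : ℝ) ^ (-η) := Real.rpow_le_rpow_of_exponent_le hN1 (by linarith)
    exact hE2 h hh0 hhe hhN hhE q hq1 hqB a ha1 ha2 y hy2 hyN a₁ b₁ a₂ b₂ (hle.trans hb1) hb1' (hle.trans hb2) hb2'
  refine ⟨η, hη0, ?_, ?_, ?_⟩
  · intro A
    exact Pool.Agent.H806.PD.rep_almost P R η hη0 (by linarith) hbox A
  · intro A B C
    obtain ⟨N₂, h3⟩ := hbox A B C
    refine ⟨N₂, fun N hN => ?_⟩
    obtain ⟨E, hE1, hE2⟩ := h3 N hN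
    refine ⟨E, hE1, fun h hh0 hhe hhN hhE q hq1 hqB a ha1 ha2 y hy2 hyN a₁ b₁ a₂ b₂ hb1 hb1' hb2 hb2' => ?_⟩
    have key := hE2 h hh0 hhe hhN hhE q hq1 hqB a ha1 ha2 y hy2 hyN a₁ b₁ a₂ b₂ hb1 hb1' hb2 hb2'
    have e : Pool.Agent.H560R3.GB.sing h / Pool.Agent.W93.PP.Cnt q h * Pool.Agent.W93.PP.Li2 y = predicted h q y := by
      unfold Pool.Agent.H560R3.GB.sing Pool.Agent.W93.PP.Cnt Pool.Agent.W93.PP.Li2 predicted
      ring
    rw [e] at key
    exact key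
  · refine ⟨N₀ + 1, fun N hN => ?_⟩
    have hN1 : (1 : ℝ) ≤ N := by exact_mod_cast (by omega : 1 ≤ N)
    have hle : (N : ℝ) ^ (1 - η₀) ≤ (N : ℝ) ^ (1 - η) := Real.rpow_le_rpow_of_exponent_le hN1 (by linarith)
    have hle2 : (N : ℝ) ^ η ≤ (N : ℝ) ^ η₀ := Real.rpow_le_rpow_of_exponent_le hN1 (by linarith)
    obtain ⟨E, hE1, hE2⟩ := hmain N (by omega)
    exact ⟨E, hE1.trans hle, fun h hh hhE q hq1 hqN a y hy a₁ b₁ a₂ b₂ hb1 hb1' hb2 hb2' =>
      (hE2 h hh hhE q hq1 (hqN.trans hle2) a y hy a₁ b₁ a₂ b₂ hb1 hb1' hb2 hb2').trans hle⟩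

end Pool.Agent.Results.MP_70e905_nt.PolynomialBohrSets
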