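import Pool.Agent.helper616_TG.Main1

/-!
# Every real number as a limit of differences `λ p - q`, for almost every `λ > 0`

For almost every real `λ > 0` every real number is approximated by the differences `λ p - q`, `p` and `q` prime, and
the number of such differences in a given interval `(u, v)` with `p < N` is asymptotically `(v - u) N / (log N) ^ 2`;
more generally for the differences `λ p ^ c - q`, `c > 0`.

Proof: sums of `log p h(⌊α p ^ c⌋)` over the primes, where `h` has mean value zero, are small for almost every `α`
(Plancherel in `log α`, the bound of Vinogradov and Korobov for the sums of `p ^ (i t)`), for the functions `h` which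
belong to the cells `i / K ≤ λ p ^ c - q < (i + 1) / K`.
-/

set_option autoImplicit false

open Filter Topology MeasureTheory

namespace Pool.Agent.Results.MP_70e905_nt.RealMultiplesOfPrimes

/-- For almost every `l > 0`: for all `u < v` the number of pairs of primes `(p, q)` with `p < N` and
`u < l p ^ c - q < v`, divided by `N / (c (log N) ^ 2)`, tends to `v - u`. -/
theorem result (c : ℝ) (hc : 0 < c) : ∀ᵐ l : ℝ, 0 < l → ∀ u v : ℝ, u < v →
    Tendsto (fun N : ℕ => ((Set.ncard {x : ℕ × ℕ | x.1 < N ∧ x.1.Prime ∧ x.2.Prime ∧ u < l * (x.1 : ℝ) ^ c - x.2 ∧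
      l * (x.1 : ℝ) ^ c - x.2 < v} : ℕ) : ℝ) / (N / (c * (Real.log N) ^ 2))) atTop (𝓝 (v - u)) :=
  Pool.Agent.helper616_TG.differences c hc

end Pool.Agent.Results.MP_70e905_nt.RealMultiplesOfPrimes
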