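import Pool.Agent.H469S.Main
import Pool.Agent.H469S.D4
import Pool.Agent.W25.UB.Final
import Pool.Agent.W150.UBC1a

/-!
# A uniform Ramsey theorem for the gaps between consecutive primes: sums, products, arbitrary functions

Let `N` be squarefree and divisible by `6`, and let `a` be coprime to `N`. For every `m` there is `K` such that
the following holds for all commutative monoids `A` (for instance `ℕ`), all `x_0, x_1, … ∈ A` and all families
(with indices `b < m` and `k`) of

* functions `f = f_{b,k} : A ^ k → ℤ` which are (jointly) additive in the variables from a set `J = J_{b,k}`, and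
* four arbitrary functions `e_0, …, e_3 : A ^ k → ℤ` which do not depend on the variables from `J`.

There are nonempty sets `H_0 < H_1 < … < H_{m-1}` of indices `< K` such that, with `y_j` the sum of the `x_t`,
`t ∈ H_j`, and with `z` the vector of the sums of the `y_j`, `j ∈ F_l`, `l < k`, for every `b` and `k`: either
`f (z) = 0` for ALL nonempty sets `F_0 < … < F_{k-1}` of indices `< m`, or there are `i < j` such that for ALL
these sets the absolute value of `f (z) + N (e_j (z) - e_i (z))` is a gap between consecutive primes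
`p_n ≡ a (mod N)` and `p_{n+1}`, for at least `x ^ (1 - η)` primes `p_n ≤ x`, for every `η > 0` and arbitrarily
large `x`.

Examples (`A = ℕ`, all `x_t > 0`): `e = 0` and `f` a multiple of the product of the variables, a linear form,
or a variable multiplied by an arbitrary positive function of the other variables: the values themselves are
gaps; `e_i = i g`: `f + c N g` is a gap for one of `c = 1, 2, 3`.
With `m` one variable functions `N_b u` and `x_t = 1`: any `m` positive integers `N_b` have a common multiplier
`k ≤ K (m)` such that all `k N_b` are gaps.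

Proof: the four classes theorem for gaps (coloured Maynard-Tao theorem of the starting files), iterated limits
along an idempotent ultrafilter on the finite sets, and a limit over all counterexamples.
-/

set_option autoImplicit false

namespace Pool.Agent.Results.MP_70e905_nt.SumsAndProducts

open Finset Filter

/-- `g` is the gap after at least `x ^ (1 - η)` primes `p_n ≤ x`, `p_n ≡ a (mod N)`, for every `η > 0` and
arbitrarily large `x` (`p_n` is the prime with index `n`). -/
def Gap (N a g : ℕ) : Prop := ∀ η : ℝ, 0 < η → ∃ᶠ x : ℝ in atTop,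
  x ^ (1 - η) ≤ ({n : ℕ | (Nat.nth Nat.Prime n : ℝ) ≤ x ∧ Nat.nth Nat.Prime n ≡ a [MOD N] ∧
    Nat.nth Nat.Prime (n + 1) = Nat.nth Nat.Prime n + g}.ncard : ℝ)

/-- `F_0 < F_1 < … < F_{k-1}`, all these finite sets being nonempty -/
def Blocks {ι : Type} [LT ι] {k : ℕ} (F : Fin k → Finset ι) : Prop :=
  (∀ i, (F i).Nonempty) ∧ ∀ i j, i < j → ∀ s ∈ F i, ∀ t ∈ F j, s < t

/-- the vector with the entries `∑_{j ∈ F l} y_j`, where `y_j = ∑_{t ∈ H_j} x_t` -/
def sums {A : Type} [AddCommMonoid A] {m k : ℕ} (H : Fin m → Finset ℕ) (x : ℕ → A)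
    (F : Fin k → Finset (Fin m)) : Fin k → A :=
  fun l => ∑ j ∈ F l, ∑ t ∈ H j, x t

/-- `f` is additive in the variables from `J`, jointly, for fixed values of the other variables -/
def AdditiveIn {A : Type} [AddCommMonoid A] {k : ℕ} (J : Finset (Fin k)) (f : (Fin k → A) → ℤ) : Prop :=
  ∀ u v : Fin k → A, (∀ j, j ∉ J → u j = v j) →
    f (fun j => if j ∈ J then u j + v j else u j) = f u + f v

/-- `f` does not depend on the variables from `J` -/
def IndependentOf {A : Type} {k : ℕ} (J : Finset (Fin k)) (f : (Fin k → A) → ℤ) : Prop :=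
  ∀ u v : Fin k → A, (∀ j, j ∉ J → u j = v j) → f u = f v

theorem result (N a : ℕ) (h6 : 6 ∣ N) (hsq : Squarefree N) (ha : Nat.Coprime a N) (m : ℕ) :
    ∃ K : ℕ, ∀ (A : Type) [AddCommMonoid A] (f : Fin m → (k : ℕ) → (Fin k → A) → ℤ)
      (e : Fin m → (k : ℕ) → Fin 4 → (Fin k → A) → ℤ) (J : Fin m → (k : ℕ) → Finset (Fin k)),
      (∀ b k, AdditiveIn (J b k) (f b k)) → (∀ b k i, IndependentOf (J b k) (e b k i)) →
      ∀ x : ℕ → A, ∃ H : Fin m → Finset ℕ, Blocks H ∧ (∀ i, ∀ t ∈ H i, t < K) ∧
        ∀ b k, (∀ F : Fin k → Finset (Fin m), Blocks F → f b k (sums H x F) = 0) ∨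
          ∃ i j : Fin 4, i < j ∧ ∀ F : Fin k → Finset (Fin m), Blocks F →
            Gap N a (f b k (sums H x F) +
              N * (e b k j (sums H x F) - e b k i (sums H x F))).natAbs := by
  have hN : 0 < N := Nat.pos_of_ne_zero hsq.ne_zero
  have hD := Pool.Agent.H469S.d4 (Pool.Agent.W150.UBC1a.main Pool.Agent.W25.UB.thmV) N a hN h6 hsq ha
  obtain ⟨K, hK⟩ := Pool.Agent.H469S.main hN hD m
  refine ⟨K, fun A _ f e J hf he x => ?_⟩
  obtain ⟨H, hH, hHK, h⟩ := hK A f e J hf he x
  refine ⟨H, hH, hHK, fun b k => ?_⟩
  rcases h b k with h | ⟨i, j, hij, h⟩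
  · exact Or.inl h
  · refine Or.inr ⟨i, j, hij, fun F hF η hη => ?_⟩
    obtain ⟨l, hl, hval⟩ := h F hF
    have h1 := Pool.Agent.W59.GB.nthB hl η hη
    have h2 : (f b k (sums H x F) +
        N * (e b k j (sums H x F) - e b k i (sums H x F))).natAbs = N * l := by
      zify
      exact hval
    rw [h2]
    exact h1

end Pool.Agent.Results.MP_70e905_nt.SumsAndProducts
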